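import Pool.Agent.TH780.PS.Main

set_option autoImplicit false

/-!
# A positive proportion of the finite subsets of every finite set are exact prime patterns between record gaps

Let `f(x) = log x (log₂ x)² log₄ x / (log₃ x)²`, the size of the largest gaps between consecutive primes that
are known to occur up to `x`. A finite set `S` of integers is called an isolated pattern if for infinitely many `n`
the primes at distance at most `c f(n)` from `n` are exactly the numbers `n + y`, `y ∈ S`: they are consecutive
primes with the gaps given by `S`, and this cluster is preceded and followed by gaps of record size.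

For every `m` there are `K` and `c > 0` such that for all `t ≥ K` there are `R` and `δ > 0` with: for EVERY set `A`
of at least `R` integers at least the proportion `δ` of all the `t`-element subsets `T` of `A` consist of isolated
patterns in the strongest sense: there is `s` between `m` and `K` such that EVERY `s`-element subset of `T` is an
isolated pattern. This holds for `l` residue classes `r_j mod q_j` of all the primes involved at once, and the
constants do not depend on the moduli: for instance (`A = Q * {1, ..., N}`) a positive proportion, independent
of `Q`, of the patterns of multiples of a squarefree number `Q` below `Q N` occur.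

Method: the theorem `Pool.Agent.W126.RecIso.core` of the starting files (among any `K(m)` integers there are at
least `m` which form the exact pattern of the primes in intervals of record length on both sides), the finite
Ramsey theorem for all sizes of subsets up to `K` and all the residue classes at once, and double counting.
-/

open Filter

namespace Pool.Agent.Results.MP_3bc45c_nt.PatternSupersaturation

/-- The record scale `f(x) = log x (log₂ x)² log₄ x / (log₃ x)²` (iterated natural logarithms). -/
noncomputable def f (x : ℝ) : ℝ :=
  Real.log x * (Real.log (Real.log x)) ^ 2 * Real.log (Real.log (Real.log (Real.log x))) /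
    (Real.log (Real.log (Real.log x))) ^ 2

/-- For infinitely many `n` the primes at distance at most `c f(n)` from `n` are exactly the numbers `n + y`,
`y ∈ S`, and these are all `≡ r (mod q)`. -/
def IsolatedPattern (c : ℝ) (q r : ℕ) (S : Finset ℤ) : Prop :=
  ∃ᶠ n : ℕ in atTop, (∀ y : ℤ, |(y : ℝ)| ≤ c * f n → (((n : ℤ) + y).toNat.Prime ↔ y ∈ S)) ∧
    ∀ y ∈ S, (n : ℤ) + y ≡ r [ZMOD q]

/-- For every `m` there are `K` and `c > 0` such that for all `l` and `t ≥ K` there are `R` and `δ > 0` with: for
all squarefree `q j` and all `r j` prime to `q j`, `j < l`, and for every set `A` of at least `R` integers which are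
congruent to each other modulo all the `q j`, at least the proportion `δ` of all `t`-element subsets `T` of `A` have
the following property: for every `j` there is `s` with `m ≤ s ≤ K` such that every `s`-element subset of `T` is an
isolated pattern for the class `r j` modulo `q j`. -/
theorem result (m : ℕ) : ∃ (K : ℕ) (c : ℝ), 0 < c ∧ ∀ t l : ℕ, K ≤ t → ∃ (R : ℕ) (δ : ℝ), 0 < δ ∧
    ∀ q r : Fin l → ℕ, (∀ j, Squarefree (q j)) → (∀ j, (r j).Coprime (q j)) →
    ∀ A : Finset ℤ, (∀ j, ∀ a ∈ A, ∀ b ∈ A, (q j : ℤ) ∣ a - b) → R ≤ A.card →
      δ * (A.card.choose t : ℝ) ≤ ({T : Finset ℤ | T ⊆ A ∧ T.card = t ∧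
        ∀ j, ∃ s, m ≤ s ∧ s ≤ K ∧ ∀ S ⊆ T, S.card = s → IsolatedPattern c (q j) (r j) S}.ncard : ℝ) :=
  Pool.Agent.TH780.PS.main m

end Pool.Agent.Results.MP_3bc45c_nt.PatternSupersaturation
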