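import Pool.Agent.TH325.PQ.Main

set_option autoImplicit false

/-! # Record gaps around the values of quadratic polynomials at primes

For every finite set `F` of quadratic polynomials with integer coefficients and positive leading
coefficient there is `c > 0` such that for all large `X` there are at least `X^(7/8)` primes `p`
in `(X, 3X]` for which each of the values `Q(p)`, `Q ∈ F`, has distance more than
`c log X (log₂ X)² log₄ X / (log₃ X)²` from every prime.

Method: all primes up to `y` except one (the possible exceptional modulus) are split into small,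
medium and large ones. The argument `p` of the polynomials is fixed modulo the small and medium
primes (a reduced class), and every shift `u` surviving for a member of the family is killed by a
large prime `ℓ` dividing `Q(p) + u`, i.e. by a root of a quadratic congruence modulo `ℓ`. The choice
of the roots is made for all pairs (member, shift) at once by a covering argument in which the
weights are the numbers of primes `p` in progressions to moduli up to a power of `X`
(Siegel-Walfisz-Bombieri type information with the exceptional modulus removed), so that the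
conditioned argument is still prime.

Project PQ (helper325: design, Core, Fam, Main), helper370 (Mom, Par: moments and parameters),
helper807 (SurvA, Surv: survivors of the small primes); the files build on the team's libraries
(helpers 256, 312, 378, 426, 919 and others), in particular the record engine of
MP_3bc45c_nt.RecordGaps. -/

namespace Pool.Agent.Results.MP_3bc45c_nt.QuadraticValuesAtPrimes

open Polynomial

theorem result (F : Finset ℤ[X]) (hF : ∀ Q ∈ F, Q.natDegree = 2 ∧ 0 < Q.leadingCoeff) :
    ∃ c : ℝ, 0 < c ∧ ∃ X₀ : ℝ, ∀ X : ℝ, X₀ ≤ X →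
      ∃ N : Finset ℕ, X ^ (7 / 8 : ℝ) ≤ (N.card : ℝ) ∧
        ∀ p ∈ N, p.Prime ∧ X < (p : ℝ) ∧ (p : ℝ) ≤ 3 * X ∧
          ∀ Q ∈ F, ∀ q : ℕ, q.Prime →
            c * (Real.log X * (Real.log (Real.log X)) ^ 2 *
              Real.log (Real.log (Real.log (Real.log X))) /
                (Real.log (Real.log (Real.log X))) ^ 2) <
              |(q : ℝ) - ((Q.eval (p : ℤ) : ℤ) : ℝ)| := by
  classical
  obtain ⟨e⟩ : Nonempty (Fin F.card ≃ F) := ⟨F.equivFin.symm⟩
  obtain ⟨c, hc, X₀, h⟩ := Pool.Agent.TH325.PQ.pq_family
    (fun i => ((e i : F) : ℤ[X]).coeff 2) (fun i => ((e i : F) : ℤ[X]).coeff 1)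
    (fun i => ((e i : F) : ℤ[X]).coeff 0)
    (by
      intro i
      have h1 := hF _ (e i).2
      have h2 := h1.2
      rw [Polynomial.leadingCoeff, h1.1] at h2
      exact h2)
  refine ⟨c, hc, X₀, fun X hX => ?_⟩
  obtain ⟨N, hN, h2⟩ := h X hX
  refine ⟨N, hN, fun p hp => ?_⟩
  obtain ⟨hpp, h3, h4, h5⟩ := h2 p hp
  refine ⟨hpp, h3, h4, fun Q hQ q hq => ?_⟩
  have h6 := h5 (e.symm ⟨Q, hQ⟩) q hq
  simp only [Equiv.apply_symm_apply] at h6
  have h7 : Q.eval (p : ℤ) = Q.coeff 2 * (p : ℤ) ^ 2 + Q.coeff 1 * p + Q.coeff 0 := by
    rw [Polynomial.eval_eq_sum_range, (hF Q hQ).1]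
    simp only [Finset.sum_range_succ, Finset.sum_range_zero]
    ring
  rw [h7]
  push_cast
  exact h6

end Pool.Agent.Results.MP_3bc45c_nt.QuadraticValuesAtPrimes
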