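import Mathlib
import Pool.Agent.TH779.Shat.Rec

/-!
# A positive proportion of prescribed points is shattered by the primes, up to the record scale

Look at the primes of an interval `[n, n + H]` of any length between the average gap `log X` and the record
size `c f(X)`, `f(X) = log X (log₂ X)² log₄ X / (log₃ X)²`, and prescribe `m` points `b_1, …, b_m` of the
window. There are at least `c₀ m` of the points, `c₀ > 0` an absolute constant, for which EVERY subset is the
exact set of those points that are approached by primes, for many `n ∈ (X, 4X]` for which moreover all the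
primes of the whole window are close to some of the `m` points. In particular at least `2 ^ (c₀ m)` different
shapes of the primes occur at every such scale: the primes have positive entropy at the record scale.

Proof. The coloured Maynard-Tao theorem inside the record windows of the starting files
(`Pool.Agent.H362R2.RQ.prop_all`) says that, for any `m` points, the primes approach a positive proportion
of them and no others. It is applied to ALL sub-collections of the points. A family of subsets of a set with `m`
elements which has in every set `A` a member of at least `η |A|` elements has exponentially many members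
(counting of the pairs), and shatters a set of at least `c₀ m` elements (Sauer-Shelah lemma).
-/

set_option autoImplicit false

namespace Pool.Agent.Results.MP_3bc45c_nt.ShatteredRecordWindows

/-- `f(X) = log X (log₂ X)² log₄ X / (log₃ X)²` (iterated natural logarithms). -/
noncomputable def f (x : ℝ) : ℝ :=
  Real.log x * (Real.log (Real.log x)) ^ 2 * Real.log (Real.log (Real.log (Real.log x))) /
    (Real.log (Real.log (Real.log x))) ^ 2

/-- Some prime `p ≡ a (mod q)` has `(p - n)/H` within `δ` of `b`. -/
def Approached (q a : ℕ) (δ H b : ℝ) (n : ℕ) : Prop :=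
  ∃ p : ℕ, p.Prime ∧ p ≡ a [MOD q] ∧ |((p : ℝ) - n) / H - b| ≤ δ

/-- All the primes of `[n, n + H]` are `≡ a (mod q)` and have `(p - n)/H` within `δ` of one of the `b i`. -/
def OnlyNear {m : ℕ} (q a : ℕ) (δ H : ℝ) (b : Fin m → ℝ) (n : ℕ) : Prop :=
  ∀ p : ℕ, p.Prime → (n : ℝ) ≤ p → (p : ℝ) ≤ n + H →
    p ≡ a [MOD q] ∧ ∃ i, |((p : ℝ) - n) / H - b i| ≤ δ

/-- There is an absolute constant `c₀ > 0` such that for every `m ≥ 2` there is `c > 0` with the following
property. Let `δ > 0`, `q` squarefree, `a` prime to `q`, `X` large and `log X ≤ H ≤ c f(X)`, and let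
`b 1, …, b m ∈ [δ, 1 - δ]` be points at mutual distances `> 2 δ`. There is a set `I` of at least `c₀ m` indices
such that for EVERY subset `T` of `I` there are at least `X^(7/8) / 2^m` integers `n ∈ (X, 4X]` for which all
the primes of `[n, n + H]` are `≡ a (mod q)` and close to the `m` points, and for `i ∈ I` the point `b i` is
approached if and only if `i ∈ T`. -/
theorem result : ∃ c₀ : ℝ, 0 < c₀ ∧ ∀ m : ℕ, 2 ≤ m → ∃ c : ℝ, 0 < c ∧ ∀ δ : ℝ, 0 < δ →
    ∀ q a : ℕ, Squarefree q → a.Coprime q → ∃ X₀ : ℝ, ∀ X : ℝ, X₀ ≤ X → ∀ H : ℝ, Real.log X ≤ H →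
      H ≤ c * f X → ∀ b : Fin m → ℝ, (∀ i, δ ≤ b i ∧ b i ≤ 1 - δ) →
      (∀ i j, i ≠ j → 2 * δ < |b i - b j|) →
      ∃ I : Finset (Fin m), c₀ * m ≤ I.card ∧ ∀ T ⊆ I, X ^ (7 / 8 : ℝ) / 2 ^ m ≤
        ({n : ℕ | X < n ∧ (n : ℝ) ≤ 4 * X ∧ OnlyNear q a δ H b n ∧
          ∀ i ∈ I, Approached q a δ H (b i) n ↔ i ∈ T}.ncard : ℝ) :=
  Pool.Agent.TH779.Shat.rec_main

end Pool.Agent.Results.MP_3bc45c_nt.ShatteredRecordWindows
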