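import Pool.Agent.TH709.RGap.SzemMain

set_option autoImplicit false

/-!
# Szemerédi's theorem with common differences from consecutive prime gaps of record size

Let `f(x) = log x (log₂ x)² log₄ x / (log₃ x)²`, the size of the largest gaps that are known to
occur among the primes up to `x`.  Let `A ⊆ ℤ^e` have upper Banach density greater than `δ > 0` and
let `F ⊆ ℤ^e` be finite.  There are at least `x^(7/8)` blocks of consecutive primes up to `x`
with gaps `d_1, …, d_k ≥ c f(x)` such that for EVERY number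

`m = c₀ d_i + μ_1 d_1 + … + μ_(i-1) d_(i-1)`, `1 ≤ i ≤ k`, `μ_j` integers, `|μ_j| ≤ p`,

the set of the `a` with `a + m F ⊆ A` has upper Banach density at least `η(|F|, δ) > 0`.  The
constants `c` and `x₀` depend only on `k`, `p`, `c₀`, `|F|` and `δ`.

With `k = 1`, `F = {0, 1, …, l}`: every set of integers of positive upper density contains
progressions of length `l + 1` whose common difference is a prime gap of record size, for at least
`x^(7/8)` of the gaps up to `x`.  With `c₀ = p = 1`: all the sums of nonempty subsets of `k`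
consecutive record gaps are common differences at the same time.

Method.  The set of the `m` with this property meets every large finite set of sums
(Furstenberg-Katznelson; from the density Hales-Jewett theorem `Pool.Agent.H602R3.DHJ.dhj`);
Deuber's theorem for record gaps (`Pool.Agent.TH709.RGap.deuber_gaps`, from the sieve of helper101)
applied to the colouring of the `m` according to this property.
-/

namespace Pool.Agent.Results.MP_3bc45c_nt.SzemerediRecordGaps

/-- The record scale `f(x) = log x (log₂ x)² log₄ x / (log₃ x)²` (iterated natural logarithms). -/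
noncomputable def f (x : ℝ) : ℝ :=
  Real.log x * (Real.log (Real.log x)) ^ 2 * Real.log (Real.log (Real.log (Real.log x))) /
    (Real.log (Real.log (Real.log x))) ^ 2

/-- The `i`-th prime, numbered from `p 0 = 2`. -/
noncomputable def p (i : ℕ) : ℕ := Nat.nth Nat.Prime i

/-- The gap after the `i`-th prime. -/
noncomputable def d (i : ℕ) : ℤ := (p (i + 1) : ℤ) - p i

/-- The primes `p_n, …, p_(n+k)` are at most `x` and the `k` gaps between them are at least
`c f(x)`. -/
def RecordBlock (c x : ℝ) (k n : ℕ) : Prop :=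
  (p (n + k) : ℝ) ≤ x ∧ ∀ i < k, c * f x ≤ (d (n + i) : ℝ)

/-- The Deuber set generated by the `k` gaps after `p_n`: all the integers
`c₀ d_(n+i) + ∑_(j < i) μ_j d_(n+j)` with `i < k` and integers `|μ_j| ≤ q`. -/
def DeuberSet (q c₀ k n : ℕ) : Set ℤ :=
  {v | ∃ i < k, ∃ μ : ℕ → ℤ, (∀ j, |μ j| ≤ q) ∧
    v = c₀ * d (n + i) + ∑ j ∈ Finset.range i, μ j * d (n + j)}

/-- There are arbitrarily large cubes `x + [0, N)^e` in which `A` has density at least `δ`; this
holds if the upper Banach density of `A` is greater than `δ`, and implies that it is at least `δ`. -/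
def UpperDensity {e : ℕ} (A : Set (Fin e → ℤ)) (δ : ℝ) : Prop :=
  ∀ L : ℕ, ∃ N : ℕ, L ≤ N ∧ ∃ x : Fin e → ℤ,
    δ * (N : ℝ) ^ e ≤ (Set.ncard {v | v ∈ A ∧ ∀ i, x i ≤ v i ∧ v i < x i + N} : ℝ)

/-- **Szemerédi's theorem along record gaps.**  For all `l` and `δ > 0` there is `η > 0` such that
for all `k`, `q`, `c₀ ≥ 1` there are `c > 0` and `x₀` such that for all `x ≥ x₀`, every set
`A ⊆ ℤ^e` of upper Banach density at least `δ` (see `UpperDensity`) and every family of `l + 1`
points `F t ∈ ℤ^e` there are at least `x^(7/8)` blocks `p_n, …, p_(n+k)` of consecutive primes up to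
`x`, with all `k` gaps at least `c f(x)`, such that every element `m` of their Deuber set is
positive and the points `a` with `a + m F ⊆ A` have upper Banach density at least `η`. -/
theorem result (l : ℕ) (δ : ℝ) (hδ : 0 < δ) : ∃ η : ℝ, 0 < η ∧ ∀ k q c₀ : ℕ, 0 < c₀ →
    ∃ c : ℝ, 0 < c ∧ ∃ x₀ : ℝ, ∀ x : ℝ, x₀ ≤ x →
    ∀ (e : ℕ) (A : Set (Fin e → ℤ)), UpperDensity A δ → ∀ F : Fin (l + 1) → Fin e → ℤ,
    x ^ (7 / 8 : ℝ) ≤ (Set.ncard {n : ℕ | RecordBlock c x k n ∧
      ∀ m ∈ DeuberSet q c₀ k n, 0 < m ∧ UpperDensity {a | ∀ t, a + m • F t ∈ A} η} : ℝ) := by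
  obtain ⟨η, hη, hmain⟩ := Pool.Agent.TH709.RGap.szem_gaps l δ hδ
  refine ⟨η, hη, fun k q c₀ hc₀ => ?_⟩
  obtain ⟨c, hc, h⟩ := hmain k q c₀ hc₀
  obtain ⟨x₀, hx₀⟩ := Filter.eventually_atTop.1 h
  refine ⟨c, hc, x₀, fun x hx e A hA F => (hx₀ x hx e A hA F).trans ?_⟩
  rw [Nat.cast_le]
  refine Set.ncard_le_ncard ?_ ?_
  · rintro n ⟨h1, h2, h3⟩
    refine ⟨⟨h1, fun i hi => ?_⟩, ?_⟩
    · unfold d p
      push_cast
      exact h2 i hi
    · rintro v ⟨i, hi, μ, hμ, rfl⟩
      obtain ⟨m, hm0, hm, hmc⟩ := h3 i hi μ hμ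
      have h4 : (m : ℤ) = c₀ * d (n + i) + ∑ j ∈ Finset.range i, μ j * d (n + j) := hm
      rw [← h4]
      exact ⟨by exact_mod_cast hm0, hmc⟩
  · refine (Set.finite_Iic ⌊x⌋₊).subset ?_
    rintro n ⟨⟨h1, -⟩, -⟩
    refine Nat.le_floor (le_trans ?_ h1)
    have h2 : n + k ≤ Nat.nth Nat.Prime (n + k) :=
      (Nat.nth_strictMono Nat.infinite_setOfPred_prime).le_apply
    exact_mod_cast (Nat.le_add_right n k).trans h2

end Pool.Agent.Results.MP_3bc45c_nt.SzemerediRecordGaps
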